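import Pool.Agent.Helper97.Ends.InvDomPrim
import Pool.Agent.Helper5.Ends.RiemannMap
import Pool.Agent.Helper6.Ends.Inverse




/-! EN-7: the Riemann map of the complement of one component. -/

set_option autoImplicit false

open Set Filter Metric Topology MeasureTheory
open Pool.Agent.Helper61.KS

namespace Pool.Agent.EN

theorem chart_of {K : Set ℂ} (hK : IsClosed K) {a : ℂ}
    (ha : a ∈ interior K) {f : ℂ → ℂ} {w₀ : ℂ} (hf : DifferentiableOn ℂ f (invDom K a))
    (hi : InjOn f (invDom K a)) (him : f '' invDom K a = ball 0 1) (h0 : f w₀ = 0)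
    (hw : Bornology.IsBounded K → w₀ = 0) : Chart K fun z => f (z - a)⁻¹ := by
  have hopen := invDom_isOpen hK ha
  obtain ⟨δ, hδ, hball⟩ := Metric.isOpen_iff.1 isOpen_interior a ha
  have hsub : ball a δ ⊆ K := hball.trans interior_subset
  have hna : ∀ z ∈ Kᶜ, δ ≤ ‖z - a‖ := by
    intro z hz
    by_contra h
    rw [not_le] at h
    exact hz (hsub (by rwa [mem_ball, dist_eq_norm]))
  have hne : ∀ z ∈ Kᶜ, z - a ≠ 0 := fun z hz h0 => by
    have := hna z hz
    rw [h0, norm_zero] at this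
    linarith
  have hmem : ∀ z ∈ Kᶜ, (z - a)⁻¹ ∈ invDom K a := fun z hz => by
    refine Or.inl ⟨inv_ne_zero (hne z hz), ?_⟩
    rw [inv_inv, add_sub_cancel]
    exact hz
  have hback : ∀ w ∈ invDom K a, w ≠ 0 → a + w⁻¹ ∈ Kᶜ ∧ (a + w⁻¹ - a)⁻¹ = w := by
    intro w hw hw0
    rcases hw with ⟨-, h⟩ | ⟨h, -⟩
    · exact ⟨h, by rw [add_sub_cancel_left, inv_inv]⟩
    · exact absurd h hw0
  obtain ⟨-, -, g, hg, hgf⟩ := exists_inverse hopen hf hi
  rw [him] at hg
  have hfg : ∀ y ∈ ball (0 : ℂ) 1, g y ∈ invDom K a ∧ f (g y) = y := by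
    intro y hy
    rw [← him] at hy
    obtain ⟨x, hx, rfl⟩ := hy
    rw [hgf x hx]
    exact ⟨hx, rfl⟩
  refine ⟨?_, ?_, ?_, ?_, ?_, ?_⟩
  · intro z hz
    have h1 : DifferentiableAt ℂ f (z - a)⁻¹ := hf.differentiableAt (hopen.mem_nhds (hmem z hz))
    have h2 : DifferentiableAt ℂ (fun z : ℂ => (z - a)⁻¹) z :=
      (differentiableAt_id.sub_const a).inv (hne z hz)
    exact (DifferentiableAt.comp z h1 h2).differentiableWithinAt
  · intro z hz z' hz' h
    have := hi (hmem z hz) (hmem z' hz') h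
    exact sub_left_injective (inv_injective this)
  · intro hb
    ext y
    constructor
    · rintro ⟨z, hz, rfl⟩
      refine ⟨?_, ?_⟩
      · rw [← him]; exact ⟨_, hmem z hz, rfl⟩
      · intro h
        have h1 : f (z - a)⁻¹ = f w₀ := by rw [h0]; exact h
        have h2 : w₀ ∈ invDom K a := by rw [hw hb]; exact Or.inr ⟨rfl, hb⟩
        have h3 := hi (hmem z hz) h2 h1
        rw [hw hb] at h3
        exact inv_ne_zero (hne z hz) h3
    · rintro ⟨hy, hy0⟩
      obtain ⟨h1, h2⟩ := hfg y hy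
      have h3 : g y ≠ 0 := by
        intro h
        rw [h] at h2
        rw [← hw hb, h0] at h2
        exact hy0 h2.symm
      obtain ⟨h4, h5⟩ := hback _ h1 h3
      exact ⟨_, h4, by show f (a + (g y)⁻¹ - a)⁻¹ = y; rw [h5, h2]⟩
  · intro hb
    ext y
    constructor
    · rintro ⟨z, hz, rfl⟩
      rw [← him]; exact ⟨_, hmem z hz, rfl⟩
    · intro hy
      obtain ⟨h1, h2⟩ := hfg y hy
      have h3 : g y ≠ 0 := by
        rcases h1 with ⟨h, -⟩ | ⟨-, h⟩
        · exact h
        · exact absurd h hb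
      obtain ⟨h4, h5⟩ := hback _ h1 h3
      exact ⟨_, h4, by show f (a + (g y)⁻¹ - a)⁻¹ = y; rw [h5, h2]⟩
  · intro ρ hρ
    have hC : IsCompact (g '' closedBall 0 ρ) :=
      (isCompact_closedBall 0 ρ).image_of_continuousOn
        (hg.continuousOn.mono (closedBall_subset_ball hρ))
    have hset : {z | z ∈ Kᶜ ∧ ‖f (z - a)⁻¹‖ ≤ ρ} =
        {z | δ ≤ ‖z - a‖} ∩ (fun z => (z - a)⁻¹) ⁻¹' (g '' closedBall 0 ρ) := by
      ext z
      constructor
      · rintro ⟨hz, hz'⟩
        refine ⟨hna z hz, f (z - a)⁻¹, ?_, hgf _ (hmem z hz)⟩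
        rwa [mem_closedBall, dist_zero_right]
      · rintro ⟨hz, y, hy, hyz⟩
        obtain ⟨h1, h2⟩ := hfg y (closedBall_subset_ball hρ hy)
        have hyz' : g y = (z - a)⁻¹ := hyz
        have hz0 : z - a ≠ 0 := by
          intro h
          have hz' : δ ≤ ‖z - a‖ := hz
          rw [h, norm_zero] at hz'
          linarith
        obtain ⟨h4, -⟩ := hback _ h1 (by rw [hyz']; exact inv_ne_zero hz0)
        rw [hyz', inv_inv, add_sub_cancel] at h4
        refine ⟨h4, ?_⟩
        rw [← hyz', h2]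
        rwa [mem_closedBall, dist_zero_right] at hy
    show IsClosed {z | z ∈ Kᶜ ∧ ‖f (z - a)⁻¹‖ ≤ ρ}
    rw [hset]
    refine ContinuousOn.preimage_isClosed_of_isClosed ?_ ?_ hC.isClosed
    · intro z hz
      have hz0 : z - a ≠ 0 := by
        intro h
        have hz' : δ ≤ ‖z - a‖ := hz
        rw [h, norm_zero] at hz'
        linarith
      exact ((continuousAt_id.sub continuousAt_const).inv₀ hz0).continuousWithinAt
    · exact isClosed_le continuous_const (by fun_prop)
  · intro hb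
    have h1 : Tendsto (fun z : ℂ => (z - a)⁻¹) (Bornology.cobounded ℂ) (𝓝 0) := by
      have h2 : Tendsto (fun z : ℂ => z - a) (Bornology.cobounded ℂ) (Bornology.cobounded ℂ) := by
        rw [← tendsto_norm_atTop_iff_cobounded]
        refine tendsto_atTop_mono (f := fun z : ℂ => ‖z‖ - ‖a‖) (fun z => norm_sub_norm_le z a) ?_
        exact tendsto_atTop_add_const_right _ _ tendsto_norm_cobounded_atTop
      exact tendsto_inv₀_cobounded.comp h2
    have h3 : ContinuousAt f 0 :=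
      (hf.differentiableAt (hopen.mem_nhds (Or.inr ⟨rfl, hb⟩))).continuousAt
    have h4 : Tendsto f (𝓝 0) (𝓝 0) := by
      have := h3.tendsto
      have h5 : f 0 = 0 := by have h6 := h0; rw [hw hb] at h6; exact h6
      rwa [h5] at this
    exact h4.comp h1

theorem exists_chart {K : Set ℂ} (hK : IsClosed K) (hKc : IsPreconnected K)
    (ha : (interior K).Nonempty) (hD : IsConnected Kᶜ)
    (hcase : Bornology.IsBounded K ∨ ∃ M : ℝ, ∀ z : ℂ, M < ‖z‖ → z ∈ K) : ∃ v, Chart K v := by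
  obtain ⟨a, ha⟩ := ha
  have hopen := invDom_isOpen hK ha
  have hpre := invDom_preconnected ha hD.isPreconnected
  have hP := invDom_hasPrim hK hKc ha hD.isPreconnected
  have hbd := invDom_bounded ha
  by_cases hb : Bornology.IsBounded K
  · obtain ⟨f, hf, hi, him, h0⟩ := riemann_map hopen hpre hbd hP
      (z₀ := 0) (Or.inr ⟨rfl, hb⟩)
    exact ⟨_, chart_of hK ha hf hi him h0 fun _ => rfl⟩
  · obtain ⟨z₁, hz₁⟩ := hD.nonempty
    have hz1 : z₁ - a ≠ 0 := by
      intro h
      rw [sub_eq_zero.1 h] at hz₁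
      exact hz₁ (interior_subset ha)
    obtain ⟨f, hf, hi, him, h0⟩ := riemann_map hopen hpre hbd hP
      (z₀ := (z₁ - a)⁻¹) (Or.inl ⟨inv_ne_zero hz1, by rw [inv_inv, add_sub_cancel]; exact hz₁⟩)
    exact ⟨_, chart_of hK ha hf hi him h0 fun h => absurd h hb⟩

end Pool.Agent.EN
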