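import Mathlib
import Pool.Agent.Helper61.KS.Paths

/-!
# Smooth planar domains and analytic Jordan domains (for MP_f940ca_an)

`SmoothDomain Ω`: `Ω` is a bounded domain with `C^∞` boundary.
`AJ k`: bounded domains with `k + 1` analytic boundary curves, with two-sided conformal collars.
Target: every smooth domain is conformally equivalent to such a domain, by a map with bounded
derivative.
-/

set_option autoImplicit false

open Set Filter Metric Topology
open scoped ContDiff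

namespace Pool.Agent.EN

/-- bounded domain with `C^∞` boundary: near every boundary point, `Ω = {ρ < 0}` with `ρ` smooth,
`dρ ≠ 0` -/
structure SmoothDomain (Ω : Set ℂ) : Prop where
  isOpen : IsOpen Ω
  connected : IsConnected Ω
  bounded : Bornology.IsBounded Ω
  smooth : ∀ p ∈ frontier Ω, ∃ ρ : ℂ → ℝ, ContDiff ℝ ∞ ρ ∧ fderiv ℝ ρ p ≠ 0 ∧
    ∀ᶠ z in 𝓝 p, (z ∈ Ω ↔ ρ z < 0)

/-- bounded domain with `C²` boundary (used in the induction) -/
structure C2Domain (Ω : Set ℂ) : Prop where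
  isOpen : IsOpen Ω
  connected : IsConnected Ω
  bounded : Bornology.IsBounded Ω
  smooth : ∀ p ∈ frontier Ω, ∃ ρ : ℂ → ℝ, ContDiffAt ℝ 2 ρ p ∧ fderiv ℝ ρ p ≠ 0 ∧
    ∀ᶠ z in 𝓝 p, (z ∈ Ω ↔ ρ z < 0)

theorem SmoothDomain.c2 {Ω : Set ℂ} (h : SmoothDomain Ω) : C2Domain Ω :=
  ⟨h.isOpen, h.connected, h.bounded, fun p hp => by
    obtain ⟨ρ, h1, h2, h3⟩ := h.smooth p hp
    exact ⟨ρ, (contDiff_infty.1 h1 2).contDiffAt, h2, h3⟩⟩

/-- the two-sided annulus `1/ρ < |z| < ρ` -/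
def ann2 (ρ : ℝ) : Set ℂ := {z | ρ⁻¹ < ‖z‖ ∧ ‖z‖ < ρ}

/-- the one-sided annulus `1 < |z| < ρ` -/
def ann (ρ : ℝ) : Set ℂ := {z | 1 < ‖z‖ ∧ ‖z‖ < ρ}

/-- bounded domains with `k + 1` analytic boundary curves; `none` is the outer boundary, `some j`
the boundary of the hole `j`; the boundary curve is `kap l (|z| = 1)`, and `|z| > 1` is the side
of the domain -/
structure AJ (k : ℕ) where
  /-- the domain -/
  U : Set ℂ
  isOpen : IsOpen U
  connected : IsConnected U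
  bounded : Bornology.IsBounded U
  /-- width of the collars -/
  ρ : ℝ
  one_lt : 1 < ρ
  /-- the collars -/
  kap : Option (Fin k) → ℂ → ℂ
  holo : ∀ l, DifferentiableOn ℂ (kap l) (ann2 ρ)
  inj : ∀ l, InjOn (kap l) (ann2 ρ)
  mem_iff : ∀ l, ∀ z ∈ ann2 ρ, (kap l z ∈ U ↔ 1 < ‖z‖)
  disj : ∀ l m, l ≠ m → Disjoint (kap l '' ann2 ρ) (kap m '' ann2 ρ)
  compact : ∀ r, 1 < r → r ≤ ρ → IsCompact (U \ ⋃ l, kap l '' ann r)
  /-- points in the holes -/
  a : Fin k → ℂ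
  a_mem : ∀ j, a j ∉ closure U
  wind_outer : ∀ j : Fin k,
    (∮ z in C(0, 1), deriv (kap none) z / (kap none z - a j)) = -(2 * Real.pi * Complex.I)
  wind : ∀ i j : Fin k,
    (∮ z in C(0, 1), deriv (kap (some i)) z / (kap (some i) z - a j)) =
      if i = j then 2 * Real.pi * Complex.I else 0

/-- the operator `∂/∂z̄` -/
noncomputable def dzbar (φ : ℂ → ℂ) (z : ℂ) : ℂ :=
  (fderiv ℝ φ z 1 + Complex.I * fderiv ℝ φ z Complex.I) / 2

/-- every holomorphic function on `D` has a holomorphic primitive on `D` -/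
def HasPrim (D : Set ℂ) : Prop :=
  ∀ g : ℂ → ℂ, DifferentiableOn ℂ g D → ∃ G : ℂ → ℂ, ∀ z ∈ D, HasDerivAt G (g z) z

/-- the image of the complement of `K` (in the Riemann sphere) under `z ↦ 1 / (z - a)` -/
def invDom (K : Set ℂ) (a : ℂ) : Set ℂ :=
  {w | (w ≠ 0 ∧ a + w⁻¹ ∉ K) ∨ (w = 0 ∧ Bornology.IsBounded K)}

/-- `v` maps the complement of `K` in the Riemann sphere conformally onto the unit disc
(with `∞ ↦ 0` if `K` is bounded) -/
structure Chart (K : Set ℂ) (v : ℂ → ℂ) : Prop where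
  holo : DifferentiableOn ℂ v Kᶜ
  inj : InjOn v Kᶜ
  image_bdd : Bornology.IsBounded K → v '' Kᶜ = ball 0 1 \ {0}
  image_unbdd : ¬ Bornology.IsBounded K → v '' Kᶜ = ball 0 1
  /-- `|v| → 1` at the boundary of `K` -/
  closed : ∀ ρ : ℝ, ρ < 1 → IsClosed {z | z ∈ Kᶜ ∧ ‖v z‖ ≤ ρ}
  at_inf : Bornology.IsBounded K → Tendsto v (Bornology.cobounded ℂ) (𝓝 0)

end Pool.Agent.EN
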