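import Pool.Agent.Helper9.Ends.MapEx
import Pool.Agent.Helper79.Ends.Components
import Pool.Agent.Helper3.Ends.Wind


/-! EN-14: induction and assembly. -/

set_option autoImplicit false

open Set Filter Metric Topology MeasureTheory

namespace Pool.Agent.EN

theorem St.run (n : ℕ) : ∀ {Ω : Set ℂ} {k : ℕ} {K : Fin (k + 1) → Set ℂ}
    {J : Finset (Fin (k + 1))} {ρ : ℝ} {κ : Fin (k + 1) → ℂ → ℂ}, St Ω K J ρ κ →
    (Finset.univ \ J).card = n →
    ∃ (F : ℂ → ℂ) (K' : Fin (k + 1) → Set ℂ) (ρ' : ℝ) (κ' : Fin (k + 1) → ℂ → ℂ),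
      St (F '' Ω) K' Finset.univ ρ' κ' ∧ DifferentiableOn ℂ F Ω ∧ InjOn F Ω ∧
      ∃ C : ℝ, ∀ z ∈ Ω, ‖deriv F z‖ ≤ C := by
  induction n with
  | zero =>
    intro Ω k K J ρ κ S hJ
    have hJu : J = Finset.univ := by
      rw [Finset.card_eq_zero, Finset.sdiff_eq_empty_iff_subset] at hJ
      exact Finset.univ_subset_iff.1 hJ
    subst hJu
    refine ⟨id, K, ρ, κ, by rwa [image_id], differentiableOn_id, injOn_id _, 1, fun z _ => ?_⟩
    simp
  | succ n ih =>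
    intro Ω k K J ρ κ S hJ
    obtain ⟨i, hi⟩ : (Finset.univ \ J).Nonempty := by
      rw [← Finset.card_pos, hJ]; exact Nat.succ_pos n
    have hiJ : i ∉ J := (Finset.mem_sdiff.1 hi).2
    obtain ⟨F₁, K₁, ρ₁, κ₁, S₁, hF₁, hi₁, C₁, hC₁⟩ := S.step hiJ
    have hcard : (Finset.univ \ (insert i J)).card = n := by
      have h1 : Finset.univ \ (insert i J) = (Finset.univ \ J).erase i := by
        ext x; simp [not_or]
      rw [h1, Finset.card_erase_of_mem hi, hJ]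
      rfl
    obtain ⟨F₂, K₂, ρ₂, κ₂, S₂, hF₂, hi₂, C₂, hC₂⟩ := ih S₁ hcard
    refine ⟨F₂ ∘ F₁, K₂, ρ₂, κ₂, by rwa [image_comp], hF₂.comp hF₁ (mapsTo_image F₁ Ω),
      hi₂.comp hi₁ (mapsTo_image F₁ Ω), C₂ * C₁, fun z hz => ?_⟩
    have h1 : DifferentiableAt ℂ F₁ z := hF₁.differentiableAt (S.c2.isOpen.mem_nhds hz)
    have h2 : DifferentiableAt ℂ F₂ (F₁ z) :=
      hF₂.differentiableAt (S₁.c2.isOpen.mem_nhds (mem_image_of_mem F₁ hz))
    rw [deriv_comp z h2 h1, norm_mul]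
    have h3 := hC₂ (F₁ z) (mem_image_of_mem F₁ hz)
    exact mul_le_mul h3 (hC₁ z hz) (norm_nonneg _) ((norm_nonneg _).trans h3)

theorem ev_ann2 {V : Set ℂ} (hV : IsOpen V) (h : sphere (0 : ℂ) 1 ⊆ V) :
    ∀ᶠ r in 𝓝[>] (1 : ℝ), ann2 r ⊆ V := by
  obtain ⟨ρ, hρ, hs⟩ := exists_ann2_sub hV h
  filter_upwards [Ioo_mem_nhdsGT hρ] with r hr
  exact (st_ann2_mono (by linarith [hr.1]) hr.2.le).trans hs

theorem isOpen_ann2 (ρ : ℝ) : IsOpen (ann2 ρ) :=
  (isOpen_lt continuous_const continuous_norm).inter (isOpen_lt continuous_norm continuous_const)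

theorem sphere_sub_ann2 {ρ : ℝ} (hρ : 1 < ρ) : sphere (0 : ℂ) 1 ⊆ ann2 ρ := by
  intro z hz
  have hz1 : ‖z‖ = 1 := by simpa using hz
  exact ⟨by rw [hz1]; exact inv_lt_one_of_one_lt₀ hρ, by rwa [hz1]⟩

/-- indices -/
def idx {k : ℕ} : Option (Fin k) → Fin (k + 1)
  | none => 0
  | some j => j.succ

theorem idx_inj {k : ℕ} : Function.Injective (idx (k := k)) := by
  intro a b h
  cases a with
  | none =>
    cases b with
    | none => rfl
    | some b => exact absurd h.symm (Fin.succ_ne_zero b)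
  | some a =>
    cases b with
    | none => exact absurd h (Fin.succ_ne_zero a)
    | some b => exact congrArg some (Fin.succ_injective _ h)

theorem idx_surj {k : ℕ} (j : Fin (k + 1)) : ∃ l, idx (k := k) l = j := by
  refine Fin.cases ⟨none, rfl⟩ (fun j => ⟨some j, rfl⟩) j

/-- the final state gives an analytic Jordan domain -/
theorem St.toAJ {U : Set ℂ} {k : ℕ} {K : Fin (k + 1) → Set ℂ} {ρ : ℝ}
    {κ : Fin (k + 1) → ℂ → ℂ} (S : St U K Finset.univ ρ κ) : ∃ D : AJ k, D.U = U := by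
  classical
  have hρ := S.one_lt
  have hUK : ∀ l z, z ∈ U → z ∉ K l := by
    intro l z hz hz'
    have : z ∈ Uᶜ := by rw [← S.union]; exact mem_iUnion.2 ⟨l, hz'⟩
    exact this hz
  choose a ha using S.int
  have haK : ∀ j, a j ∈ K j := fun j => interior_subset (ha j)
  have hcirc : ∀ j, ∀ z ∈ sphere (0 : ℂ) 1, κ j z ∈ K j := fun j z hz =>
    (S.memK j (Finset.mem_univ j) z (sphere_sub_ann2 hρ hz)).2 (by
      have : ‖z‖ = 1 := by simpa using hz
      exact this.le)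
  -- near the unit circle the collars avoid `a j`
  have hacl : ∀ j, a j ∉ closure U := by
    intro j h
    have h1 : a j ∈ interior Uᶜ := by
      refine interior_mono ?_ (ha j)
      rw [← S.union]; exact subset_iUnion K j
    rw [interior_compl] at h1
    exact h1 h
  have hcirc2 : ∀ j, ∀ z ∈ sphere (0 : ℂ) 1, κ j z ∈ closure U := by
    intro j z hz
    have hz1 : ‖z‖ = 1 := by simpa using hz
    have hzA := sphere_sub_ann2 hρ hz
    have hcont : ContinuousWithinAt (κ j) (ann ρ) z :=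
      ((S.holo j (Finset.mem_univ j)).continuousOn.continuousAt
        ((isOpen_ann2 ρ).mem_nhds hzA)).continuousWithinAt
    have hzcl : z ∈ closure (ann ρ) := by
      rw [Metric.mem_closure_iff]
      intro ε hε
      obtain ⟨s, hs1, hs2⟩ : ∃ s : ℝ, 1 < s ∧ s < min ρ (1 + ε) :=
        exists_between (lt_min hρ (by linarith))
      refine ⟨s * z, ⟨?_, ?_⟩, ?_⟩
      · rw [norm_mul, hz1, mul_one, Complex.norm_real, Real.norm_eq_abs, abs_of_pos (by linarith)]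
        exact hs1
      · rw [norm_mul, hz1, mul_one, Complex.norm_real, Real.norm_eq_abs, abs_of_pos (by linarith)]
        exact hs2.trans_le (min_le_left _ _)
      · have h1 : z - s * z = ((1 - s : ℝ) : ℂ) * z := by push_cast; ring
        rw [dist_eq_norm, h1, norm_mul, hz1, mul_one, Complex.norm_real, Real.norm_eq_abs,
          abs_lt]
        have h2 := hs2.trans_le (min_le_right _ _)
        constructor <;> linarith
    exact hcont.mem_closure hzcl fun w hw =>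
      (S.memΩ j (Finset.mem_univ j) w (ann_sub_ann2 hρ le_rfl hw)).2 hw.1
  have ev1 : ∀ᶠ r in 𝓝[>] (1 : ℝ), ∀ j, ann2 r ⊆ ann2 ρ ∩ κ j ⁻¹' {a j}ᶜ := by
    rw [eventually_all]
    intro j
    refine ev_ann2 ?_ ?_
    · exact (S.holo j (Finset.mem_univ j)).continuousOn.isOpen_inter_preimage (isOpen_ann2 ρ)
        isOpen_compl_singleton
    · intro z hz
      refine ⟨sphere_sub_ann2 hρ hz, fun h => ?_⟩
      have h1 : κ j z = a j := h
      exact hacl j (h1 ▸ hcirc2 j z hz)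
  have ev2 : ∀ᶠ r in 𝓝[>] (1 : ℝ), ∀ p : Fin (k + 1) × Fin (k + 1), p.1 ≠ p.2 →
      Disjoint (κ p.1 '' ann2 r) (κ p.2 '' ann2 r) := by
    rw [eventually_all]
    rintro ⟨i, j⟩
    rw [eventually_imp_distrib_left]
    intro hij
    obtain ⟨V, W, hV, hW, hKV, hKW, hVW⟩ := normal_separation (S.closed i) (S.closed j)
      (S.disj i j hij)
    have h1 : ∀ᶠ r in 𝓝[>] (1 : ℝ), ann2 r ⊆ ann2 ρ ∩ κ i ⁻¹' V :=
      ev_ann2 ((S.holo i (Finset.mem_univ i)).continuousOn.isOpen_inter_preimage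
        (isOpen_ann2 ρ) hV) fun z hz => ⟨sphere_sub_ann2 hρ hz, hKV (hcirc i z hz)⟩
    have h2 : ∀ᶠ r in 𝓝[>] (1 : ℝ), ann2 r ⊆ ann2 ρ ∩ κ j ⁻¹' W :=
      ev_ann2 ((S.holo j (Finset.mem_univ j)).continuousOn.isOpen_inter_preimage
        (isOpen_ann2 ρ) hW) fun z hz => ⟨sphere_sub_ann2 hρ hz, hKW (hcirc j z hz)⟩
    filter_upwards [h1, h2] with r h3 h4
    refine hVW.mono ?_ ?_
    · rintro _ ⟨z, hz, rfl⟩; exact (h3 hz).2
    · rintro _ ⟨z, hz, rfl⟩; exact (h4 hz).2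
  obtain ⟨r, ⟨hr1, hr2⟩, hr3, hr4⟩ : ∃ r : ℝ, (1 < r ∧ r < ρ) ∧
      (∀ j, ann2 r ⊆ ann2 ρ ∩ κ j ⁻¹' {a j}ᶜ) ∧
      (∀ p : Fin (k + 1) × Fin (k + 1), p.1 ≠ p.2 →
        Disjoint (κ p.1 '' ann2 r) (κ p.2 '' ann2 r)) := by
    have ev0 : ∀ᶠ r in 𝓝[>] (1 : ℝ), r ∈ Ioo 1 ρ := Ioo_mem_nhdsGT hρ
    obtain ⟨r, h1, h2, h3⟩ := (ev0.and (ev1.and ev2)).exists
    exact ⟨r, h1, h2, h3⟩
  have hmono : ann2 r ⊆ ann2 ρ := st_ann2_mono (by linarith) hr2.le
  have hKU : ∀ j, ∀ z ∈ ann2 r, κ j z ∈ K j ∨ κ j z ∈ U := by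
    intro j z hz
    rcases le_or_gt ‖z‖ 1 with h | h
    · exact Or.inl ((S.memK j (Finset.mem_univ j) z (hmono hz)).2 h)
    · exact Or.inr ((S.memΩ j (Finset.mem_univ j) z (hmono hz)).2 h)
  have hanot : ∀ i j, a j ∉ κ i '' ann2 r := by
    rintro i j ⟨z, hz, h⟩
    by_cases hij : i = j
    · subst hij
      exact (hr3 i hz).2 h
    · rcases hKU i z hz with h1 | h1
      · rw [h] at h1
        exact Set.disjoint_left.1 (S.disj i j hij) h1 (haK j)
      · rw [h] at h1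
        exact hUK j _ h1 (haK j)
  have hop : ∀ j, ∀ s, 1 < s → s ≤ r → IsOpen (K j ∪ κ j '' ann s) := fun j s h1 h2 =>
    S.opn j (Finset.mem_univ j) s h1 (h2.trans hr2.le)
  have hmemK : ∀ j, ∀ z ∈ ann2 r, (κ j z ∈ K j ↔ ‖z‖ ≤ 1) := fun j z hz =>
    S.memK j (Finset.mem_univ j) z (hmono hz)
  refine ⟨{
    U := U
    isOpen := S.c2.isOpen
    connected := S.c2.connected
    bounded := S.c2.bounded
    ρ := r
    one_lt := hr1
    kap := fun l => κ (idx l)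
    holo := fun l => (S.holo _ (Finset.mem_univ _)).mono hmono
    inj := fun l => (S.inj _ (Finset.mem_univ _)).mono hmono
    mem_iff := fun l z hz => S.memΩ _ (Finset.mem_univ _) z (hmono hz)
    disj := fun l m hlm => hr4 (idx l, idx m) fun h => hlm (idx_inj h)
    compact := ?_
    a := fun j => a j.succ
    a_mem := fun j => hacl _
    wind_outer := ?_
    wind := ?_ }, rfl⟩
  · intro s hs hs'
    have h1 : (U \ ⋃ l, κ (idx (k := k) l) '' ann s) = (⋃ j, (K j ∪ κ j '' ann s))ᶜ := by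
      ext z
      simp only [Set.mem_sdiff, mem_iUnion, mem_compl_iff, not_exists, mem_union, not_or]
      constructor
      · rintro ⟨hz, h⟩ j
        refine ⟨hUK j z hz, ?_⟩
        obtain ⟨l, rfl⟩ := idx_surj j
        exact h l
      · intro h
        refine ⟨?_, fun l => (h (idx l)).2⟩
        by_contra hz
        have hz' : z ∈ Uᶜ := hz
        rw [← S.union] at hz'
        obtain ⟨j, hj⟩ := mem_iUnion.1 hz'
        exact (h j).1 hj
    refine Metric.isCompact_of_isClosed_isBounded ?_ (S.c2.bounded.subset sdiff_subset)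
    rw [h1]
    exact (isOpen_iUnion fun j => hop j s hs hs').isClosed_compl
  · intro j
    exact wind_unbdd (S.closed 0) S.unb hr1 ((S.holo 0 (Finset.mem_univ _)).mono hmono)
      ((S.inj 0 (Finset.mem_univ _)).mono hmono) (hmemK 0) (hop 0) (hanot 0 j.succ)
      fun h => Set.disjoint_left.1 (S.disj 0 j.succ (Fin.succ_ne_zero j).symm) h (haK j.succ)
  · intro i j
    obtain ⟨M, hM⟩ := S.unb
    have hKc : IsCompact (K i.succ) := by
      refine Metric.isCompact_of_isClosed_isBounded (S.closed _) ?_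
      refine (isBounded_closedBall (x := (0 : ℂ)) (r := M)).subset fun z hz => ?_
      rw [mem_closedBall, dist_zero_right]
      by_contra h
      exact Set.disjoint_left.1 (S.disj i.succ 0 (Fin.succ_ne_zero i)) hz (hM z (not_le.1 h))
    have hw := wind_bdd hKc hr1 ((S.holo i.succ (Finset.mem_univ _)).mono hmono)
      ((S.inj i.succ (Finset.mem_univ _)).mono hmono) (hmemK i.succ) (hop i.succ)
      (hanot i.succ j.succ)
    by_cases hij : i = j
    · subst hij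
      rw [if_pos rfl]
      exact hw.1 (haK _)
    · rw [if_neg hij]
      refine hw.2 fun h => ?_
      exact Set.disjoint_left.1 (S.disj i.succ j.succ fun e => hij (Fin.succ_injective _ e)) h
        (haK _)

theorem exists_AJ {Ω : Set ℂ} (hΩ : C2Domain Ω) :
    ∃ (k : ℕ) (D : AJ k) (ψ φ : ℂ → ℂ), DifferentiableOn ℂ ψ D.U ∧ MapsTo ψ D.U Ω ∧
      DifferentiableOn ℂ φ Ω ∧ MapsTo φ Ω D.U ∧ (∀ z ∈ D.U, φ (ψ z) = z) ∧
      (∀ z ∈ Ω, ψ (φ z) = z) ∧ ∃ C : ℝ, ∀ z ∈ Ω, ‖deriv φ z‖ ≤ C := by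
  obtain ⟨k, K, a, h1, h2, h3, h4, h5, h6⟩ := exists_components hΩ
  have S : St Ω K ∅ 2 (fun _ z => z) :=
    ⟨hΩ, h1, h2, h3, h4, fun j => ⟨a j, h5 j⟩, h6, one_lt_two, by simp, by simp, by simp, by simp,
      by simp⟩
  obtain ⟨F, K', ρ', κ', S', hF, hi, C, hC⟩ := St.run _ S rfl
  obtain ⟨D, hD⟩ := S'.toAJ
  obtain ⟨-, -, g, hg, hgF⟩ := exists_inverse hΩ.isOpen hF hi
  refine ⟨k, D, g, F, ?_, ?_, hF, ?_, ?_, hgF, C, hC⟩
  · rw [hD]; exact hg
  · rw [hD]
    rintro _ ⟨z, hz, rfl⟩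
    rw [hgF z hz]; exact hz
  · rw [hD]; exact mapsTo_image F Ω
  · rw [hD]
    rintro _ ⟨z, hz, rfl⟩
    rw [hgF z hz]

end Pool.Agent.EN
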