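import Pool.Agent.Helper9.Ends.Step
import Pool.Agent.Helper9.Ends.ChartEx
import Pool.Agent.Helper60.Ends.DerivBound
import Pool.Agent.Helper44.Ends.ExtBall
import Pool.Agent.Helper97.Ends.ComplConnected

/-! EN-13b: existence of the conformal map of one step. -/

set_option autoImplicit false

open Set Filter Metric Topology MeasureTheory

namespace Pool.Agent.EN

theorem isPreconnected_ext : IsPreconnected {w : ℂ | 1 ≤ ‖w‖} := by
  have h : {w : ℂ | 1 ≤ ‖w‖} = (fun p : ℝ × ℝ => (p.1 : ℂ) * Complex.exp (p.2 * Complex.I)) ''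
      (Ici 1 ×ˢ univ) := by
    ext w
    constructor
    · intro hw
      exact ⟨(‖w‖, w.arg), ⟨hw, mem_univ _⟩, Complex.norm_mul_exp_arg_mul_I w⟩
    · rintro ⟨⟨r, t⟩, ⟨hr, -⟩, rfl⟩
      have hr' : (1 : ℝ) ≤ r := hr
      show 1 ≤ ‖(r : ℂ) * Complex.exp (t * Complex.I)‖
      rw [norm_mul, Complex.norm_exp_ofReal_mul_I, mul_one, Complex.norm_real, Real.norm_eq_abs]
      exact hr'.trans (le_abs_self r)
  rw [h]
  refine (isPreconnected_Ici.prod isPreconnected_univ).image _ ?_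
  fun_prop

theorem Chart.lt_one {K : Set ℂ} {v : ℂ → ℂ} (h : Chart K v) {z : ℂ} (hz : z ∈ Kᶜ) :
    ‖v z‖ < 1 := by
  have hm : v z ∈ v '' Kᶜ := mem_image_of_mem v hz
  by_cases hb : Bornology.IsBounded K
  · rw [h.image_bdd hb] at hm
    simpa using hm.1
  · rw [h.image_unbdd hb] at hm
    simpa using hm

theorem Chart.low {K : Set ℂ} {v : ℂ → ℂ} (h : Chart K v) {B : Set ℂ} (hB : IsCompact B)
    (h0 : ∀ z ∈ Kᶜ, z ∈ B → v z ≠ 0) : ∃ c : ℝ, 0 < c ∧ ∀ z ∈ Kᶜ, z ∈ B → c ≤ ‖v z‖ := by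
  have hT : IsCompact ({z | z ∈ Kᶜ ∧ ‖v z‖ ≤ 1 / 2} ∩ B) :=
    hB.inter_left (h.closed _ (by norm_num))
  rcases ({z | z ∈ Kᶜ ∧ ‖v z‖ ≤ 1 / 2} ∩ B).eq_empty_or_nonempty with he | hne
  · refine ⟨1 / 2, by norm_num, fun z hz hzB => ?_⟩
    by_contra hlt
    rw [not_le] at hlt
    have : z ∈ ({z | z ∈ Kᶜ ∧ ‖v z‖ ≤ 1 / 2} ∩ B) := ⟨⟨hz, hlt.le⟩, hzB⟩
    rw [he] at this
    exact this
  · obtain ⟨z₁, hz₁, hmin⟩ := hT.exists_isMinOn hne (f := fun z => ‖v z‖)
      ((h.holo.continuousOn.mono fun z hz => hz.1.1).norm)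
    refine ⟨min (1 / 2) ‖v z₁‖, lt_min (by norm_num)
      (norm_pos_iff.2 (h0 z₁ hz₁.1.1 hz₁.2)), fun z hz hzB => ?_⟩
    rcases le_or_gt ‖v z‖ (1 / 2) with hle | hgt
    · exact (min_le_right _ _).trans (hmin ⟨⟨hz, hle⟩, hzB⟩)
    · exact (min_le_left _ _).trans hgt.le

/-- bounded derivative of the Riemann map -/
theorem Chart.deriv_bd {K : Set ℂ} {v : ℂ → ℂ} (h : Chart K v) (hK : IsClosed K)
    (hne : K.Nonempty) {r₀ : ℝ} (hr₀ : 0 < r₀)
    (hball : ∀ r, 0 < r → r ≤ r₀ → ∀ p ∈ frontier K, ∃ q, dist q p = r ∧ ball q r ⊆ K)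
    (hcase : Bornology.IsBounded K ∨ Bornology.IsBounded Kᶜ) {B : Set ℂ} (hB : IsCompact B) :
    ∃ C : ℝ, ∀ z ∈ Kᶜ, z ∈ B → ‖deriv v z‖ ≤ C := by
  have hder : ContinuousOn (deriv v) Kᶜ :=
    (h.holo.deriv hK.isOpen_compl).continuousOn
  -- choose the radius
  obtain ⟨r, hr, hr', c, hc, hlow⟩ : ∃ r : ℝ, 0 < r ∧ r ≤ r₀ ∧ ∃ c : ℝ, 0 < c ∧
      ∀ z ∈ Kᶜ, infDist z K ≤ 2 * r → c ≤ ‖v z‖ := by
    by_cases hb : Bornology.IsBounded K
    · refine ⟨r₀, hr₀, le_rfl, ?_⟩
      have hBc : IsCompact {z | infDist z K ≤ 2 * r₀} := by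
        refine Metric.isCompact_of_isClosed_isBounded
          (isClosed_le (continuous_infDist_pt K) continuous_const) ?_
        refine (hb.cthickening (δ := 2 * r₀)).subset fun z hz => ?_
        rw [mem_cthickening_iff]
        have hz' : infDist z K ≤ 2 * r₀ := hz
        rw [← ENNReal.ofReal_toReal (infEDist_ne_top hne)]
        exact ENNReal.ofReal_le_ofReal hz'
      obtain ⟨c, hc, hc'⟩ := h.low hBc fun z hz _ h0 => by
        have hm : v z ∈ v '' Kᶜ := mem_image_of_mem v hz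
        rw [h.image_bdd hb] at hm
        exact hm.2 h0
      exact ⟨c, hc, fun z hz hz' => hc' z hz hz'⟩
    · have hbc : Bornology.IsBounded Kᶜ := hcase.resolve_left hb
      have h0m : (0 : ℂ) ∈ v '' Kᶜ := by rw [h.image_unbdd hb]; exact mem_ball_self one_pos
      obtain ⟨z₀, hz₀, hz₀v⟩ := h0m
      have hd : 0 < infDist z₀ K := (hK.notMem_iff_infDist_pos hne).1 hz₀
      refine ⟨min r₀ (infDist z₀ K / 4), lt_min hr₀ (by linarith), min_le_left _ _, ?_⟩
      have hBc : IsCompact (closure Kᶜ ∩ {z | infDist z K ≤ 2 * min r₀ (infDist z₀ K / 4)}) := by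
        refine Metric.isCompact_of_isClosed_isBounded (isClosed_closure.inter
          (isClosed_le (continuous_infDist_pt K) continuous_const)) ?_
        exact hbc.closure.subset inter_subset_left
      obtain ⟨c, hc, hc'⟩ := h.low hBc fun z hz hzB h0 => by
        have hzz : z = z₀ := h.inj hz hz₀ (h0.trans hz₀v.symm)
        have h1 : infDist z K ≤ 2 * min r₀ (infDist z₀ K / 4) := hzB.2
        rw [hzz] at h1
        have h2 := min_le_right r₀ (infDist z₀ K / 4)
        linarith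
      exact ⟨c, hc, fun z hz hz' => hc' z hz ⟨subset_closure hz, hz'⟩⟩
  obtain ⟨C, hC⟩ := deriv_bound hK h.holo (fun z hz => h.lt_one hz) h.closed hr hc hne
    (fun p hp => by
      obtain ⟨q, h1, h2⟩ := hball r hr hr' p hp
      exact ⟨q, h1.le, h2⟩) hlow
  have hB2 : IsCompact (B ∩ {z | r ≤ infDist z K}) :=
    hB.inter_right (isClosed_le continuous_const (continuous_infDist_pt K))
  have hsub : B ∩ {z | r ≤ infDist z K} ⊆ Kᶜ := by
    rintro z ⟨-, hz⟩ hzK
    have hz' : r ≤ infDist z K := hz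
    rw [infDist_zero_of_mem hzK] at hz'
    linarith
  obtain ⟨C', hC'⟩ := hB2.exists_bound_of_continuousOn (hder.mono hsub)
  refine ⟨max C C', fun z hz hzB => ?_⟩
  rcases le_or_gt (infDist z K) r with h1 | h1
  · exact (hC z hz h1).trans (le_max_left _ _)
  · exact (hC' z ⟨hzB, h1.le⟩).trans (le_max_right _ _)

section geometry

variable {Ω : Set ℂ} {k : ℕ} {K : Fin (k + 1) → Set ℂ}

theorem rest_closed (hcl : ∀ j, IsClosed (K j)) (i : Fin (k + 1)) :
    IsClosed (⋃ l ∈ ({i}ᶜ : Set (Fin (k + 1))), K l) :=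
  Set.Finite.isClosed_biUnion (Set.toFinite _) fun l _ => hcl l

theorem frontier_sub (hΩ : IsOpen Ω) (hcl : ∀ j, IsClosed (K j))
    (hd : ∀ i j, i ≠ j → Disjoint (K i) (K j)) (hU : (⋃ j, K j) = Ωᶜ) (i : Fin (k + 1)) :
    frontier (K i) ⊆ frontier Ω := by
  intro p hp
  have hpK : p ∈ K i := (hcl i).frontier_subset hp
  have hpΩ : p ∉ Ω := by
    have : p ∈ Ωᶜ := by rw [← hU]; exact mem_iUnion.2 ⟨i, hpK⟩
    exact this
  refine ⟨?_, by rwa [hΩ.interior_eq]⟩
  by_contra hcl'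
  have hR := rest_closed hcl i
  have hpR : p ∉ ⋃ l ∈ ({i}ᶜ : Set (Fin (k + 1))), K l := by
    intro h
    rw [mem_iUnion₂] at h
    obtain ⟨l, hl, h⟩ := h
    exact Set.disjoint_left.1 (hd l i hl) h hpK
  apply hp.2
  rw [mem_interior_iff_mem_nhds]
  filter_upwards [isClosed_closure.isOpen_compl.mem_nhds hcl', hR.isOpen_compl.mem_nhds hpR]
    with z hz hzR
  have hzΩ : z ∈ Ωᶜ := fun h => hz (subset_closure h)
  rw [← hU] at hzΩ
  obtain ⟨l, hl⟩ := mem_iUnion.1 hzΩ
  by_cases hli : l = i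
  · rwa [hli] at hl
  · exact absurd (mem_iUnion₂.2 ⟨l, hli, hl⟩) hzR

theorem ball_sub (hΩ : C2Domain Ω) (hcl : ∀ j, IsClosed (K j))
    (hd : ∀ i j, i ≠ j → Disjoint (K i) (K j)) (hU : (⋃ j, K j) = Ωᶜ) (i : Fin (k + 1)) :
    ∃ r₀ : ℝ, 0 < r₀ ∧ ∀ r, 0 < r → r ≤ r₀ → ∀ p ∈ frontier (K i),
      ∃ q, dist q p = r ∧ ball q r ⊆ K i := by
  obtain ⟨r₀, hr₀, h⟩ := exterior_ball hΩ
  refine ⟨r₀, hr₀, fun r hr hr' p hp => ?_⟩
  obtain ⟨q, hq, hb⟩ := h r hr hr' p (frontier_sub hΩ.isOpen hcl hd hU i hp)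
  refine ⟨q, hq, ?_⟩
  have hpK : p ∈ K i := (hcl i).frontier_subset hp
  have hA : IsPreconnected (insert p (ball q r)) := by
    refine (convex_ball q r).isPreconnected.subset_closure (subset_insert _ _) ?_
    rw [closure_ball q hr.ne']
    rintro z (rfl | hz)
    · rw [mem_closedBall, dist_comm]; exact hq.le
    · exact ball_subset_closedBall hz
  have hsub : insert p (ball q r) ⊆ K i ∪ ⋃ l ∈ ({i}ᶜ : Set (Fin (k + 1))), K l := by
    intro z hz
    have hz' : z ∈ Ωᶜ := by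
      rcases hz with rfl | hz
      · rw [← hU]; exact mem_iUnion.2 ⟨i, hpK⟩
      · exact hb hz
    rw [← hU] at hz'
    obtain ⟨l, hl⟩ := mem_iUnion.1 hz'
    by_cases hli : l = i
    · left; rwa [hli] at hl
    · right; exact mem_iUnion₂.2 ⟨l, hli, hl⟩
  have hdis : Disjoint (K i) (⋃ l ∈ ({i}ᶜ : Set (Fin (k + 1))), K l) := by
    rw [Set.disjoint_left]
    intro z hz h
    rw [mem_iUnion₂] at h
    obtain ⟨l, hl, h⟩ := h
    exact Set.disjoint_left.1 (hd l i hl) h hz
  rcases (isPreconnected_iff_subset_of_disjoint_closed.1 hA) _ _ (hcl i) (rest_closed hcl i) hsub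
    (by rw [hdis.inter_eq, inter_empty]) with h1 | h1
  · exact (subset_insert _ _).trans h1
  · exact absurd (h1 (mem_insert _ _)) (Set.disjoint_left.1 hdis hpK)

end geometry

theorem fderiv_normSq_ne {p : ℂ} (hp : p ≠ 0) (a b : ℝ) (ha : a ≠ 0) :
    fderiv ℝ (fun w : ℂ => a * ‖w‖ ^ 2 + b) p ≠ 0 := by
  intro h
  have h1 : HasFDerivAt (fun w : ℂ => a * ‖w‖ ^ 2 + b) (a • (2 • innerSL ℝ p)) p := by
    have h2 := ((hasStrictFDerivAt_norm_sq p).hasFDerivAt.const_mul a).add_const b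
    exact h2
  rw [h1.fderiv] at h
  have h3 := congrArg (fun T : ℂ →L[ℝ] ℝ => T p) h
  have h4 : a * (2 * ‖p‖ ^ 2) = 0 := by
    simpa [real_inner_self_eq_norm_sq] using h3
  have h5 : ‖p‖ ≠ 0 := norm_ne_zero_iff.2 hp
  have h6 : a * (2 * ‖p‖ ^ 2) ≠ 0 := mul_ne_zero ha (mul_ne_zero two_ne_zero (pow_ne_zero 2 h5))
  exact h6 h4

theorem contDiff_normSq (a b : ℝ) (p : ℂ) : ContDiffAt ℝ 2 (fun w : ℂ => a * ‖w‖ ^ 2 + b) p :=
  ((contDiff_const.mul (contDiff_norm_sq ℝ)).add contDiff_const).contDiffAt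

/-- one step -/
theorem St.step {Ω : Set ℂ} {k : ℕ} {K : Fin (k + 1) → Set ℂ} {J : Finset (Fin (k + 1))} {ρ : ℝ}
    {κ : Fin (k + 1) → ℂ → ℂ} (S : St Ω K J ρ κ) {i : Fin (k + 1)} (hi : i ∉ J) :
    ∃ (F : ℂ → ℂ) (K' : Fin (k + 1) → Set ℂ) (ρ' : ℝ) (κ' : Fin (k + 1) → ℂ → ℂ),
      St (F '' Ω) K' (insert i J) ρ' κ' ∧ DifferentiableOn ℂ F Ω ∧ InjOn F Ω ∧
      ∃ C : ℝ, ∀ z ∈ Ω, ‖deriv F z‖ ≤ C := by
  classical
  have hΩo := S.c2.isOpen
  have hΩK : ∀ l, Ω ⊆ (K l)ᶜ := by
    intro l z hz hz'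
    have : z ∈ Ωᶜ := by rw [← S.union]; exact mem_iUnion.2 ⟨l, hz'⟩
    exact this hz
  obtain ⟨M, hM⟩ := S.unb
  have hne : (K i).Nonempty := (S.int i).mono interior_subset
  have hcon := compl_connected hΩo S.c2.connected S.closed S.conn S.disj S.union i
  have hΩc : IsCompact (closure Ω) := S.c2.bounded.isCompact_closure
  by_cases hi0 : i = 0
  · -- the unbounded component
    subst hi0
    obtain ⟨v, hv⟩ := exists_chart (S.closed 0) (S.conn 0) (S.int 0) hcon (Or.inr ⟨M, hM⟩)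
    have hcb : Bornology.IsBounded (K 0)ᶜ := by
      refine (isBounded_closedBall (x := (0 : ℂ)) (r := M)).subset fun z hz => ?_
      rw [mem_closedBall, dist_zero_right]
      by_contra h
      exact hz (hM z (not_le.1 h))
    have hnb : ¬ Bornology.IsBounded (K 0) := by
      intro hb
      have h1 : Bornology.IsBounded (univ : Set ℂ) := by
        rw [← union_compl_self (K 0)]; exact hb.union hcb
      exact NormedSpace.unbounded_univ ℝ ℂ h1
    obtain ⟨r₀, hr₀, hball⟩ := ball_sub S.c2 S.closed S.disj S.union 0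
    obtain ⟨C, hC⟩ := hv.deriv_bd (S.closed 0) hne hr₀ hball (Or.inr hcb) hΩc
    have hL : v '' (K 0)ᶜ = ({w : ℂ | 1 ≤ ‖w‖})ᶜ := by
      rw [hv.image_unbdd hnb]
      ext w
      simp
    obtain ⟨ρ', hρ'⟩ := S.map hi (F := v) (L := {w : ℂ | 1 ≤ ‖w‖}) hv.holo hv.inj
      (fun A hA hAc => by
        have h1 : IsCompact A :=
          Metric.isCompact_of_isClosed_isBounded hAc (hcb.subset hA)
        exact (h1.image_of_continuousOn (hv.holo.continuousOn.mono hA)).isClosed)
      hL isPreconnected_ext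
      ⟨2, by
        refine interior_maximal (s := {w : ℂ | 1 ≤ ‖w‖}) (t := {w : ℂ | 1 < ‖w‖})
          (fun w (hw : 1 < ‖w‖) => show 1 ≤ ‖w‖ from le_of_lt hw) (isOpen_lt continuous_const continuous_norm) ?_
        show (1 : ℝ) < ‖(2 : ℂ)‖
        simp⟩
      (fun p hp _ => by
        refine ⟨fun w : ℂ => 1 * ‖w‖ ^ 2 + (-1), contDiff_normSq 1 (-1) p,
          fderiv_normSq_ne ?_ 1 (-1) one_ne_zero, Eventually.of_forall fun w => ?_⟩
        · rintro rfl
          have : (1 : ℝ) ≤ ‖(0 : ℂ)‖ := hp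
          rw [norm_zero] at this
          linarith
        · show ¬ (1 ≤ ‖w‖) ↔ 1 * ‖w‖ ^ 2 + (-1) < 0
          have h0 := norm_nonneg w
          rw [not_le]
          constructor
          · intro h; nlinarith
          · intro h; nlinarith)
      (by
        refine (isBounded_ball (x := (0 : ℂ)) (r := 1)).subset ?_
        rw [← hv.image_unbdd hnb]
        exact image_mono (hΩK 0))
      ⟨1, fun w hw => by rw [Function.update_self]; exact hw.le⟩
      (ρ₁ := 2) one_lt_two (κi := fun z => z⁻¹)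
      (fun z hz => by
        have hz0 : z ≠ 0 := by
          rintro rfl
          have := hz.1
          rw [norm_zero] at this
          norm_num at this
        exact (differentiableAt_inv hz0).differentiableWithinAt)
      (fun z _ w _ h => inv_injective h)
      (fun z hz => by
        have hz0 : 0 < ‖z‖ := lt_trans (by norm_num) hz.1
        show 1 ≤ ‖z⁻¹‖ ↔ ‖z‖ ≤ 1
        rw [norm_inv, one_le_inv₀ hz0])
      (fun r hr _ => by
        have h1 : ({w : ℂ | 1 ≤ ‖w‖} ∪ (fun z : ℂ => z⁻¹) '' ann r) = {w : ℂ | r⁻¹ < ‖w‖} := by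
          ext w
          constructor
          · rintro (hw | ⟨z, ⟨h1, h2⟩, rfl⟩)
            · exact lt_of_lt_of_le (inv_lt_one_of_one_lt₀ hr) hw
            · show r⁻¹ < ‖z⁻¹‖
              rw [norm_inv]
              exact inv_strictAnti₀ (by linarith) h2
          · intro hw
            have hw' : r⁻¹ < ‖w‖ := hw
            have hr0 : 0 < r := by linarith
            have hw0 : 0 < ‖w‖ := lt_trans (inv_pos.2 hr0) hw'
            rcases le_or_gt 1 ‖w‖ with h | h
            · exact Or.inl h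
            · refine Or.inr ⟨w⁻¹, ⟨?_, ?_⟩, inv_inv w⟩
              · rw [norm_inv]; exact (one_lt_inv₀ hw0).2 h
              · rw [norm_inv]; exact inv_lt_of_inv_lt₀ hr0 hw'
        rw [h1]
        exact isOpen_lt continuous_const continuous_norm)
    exact ⟨v, _, ρ', _, hρ', hv.holo.mono (hΩK 0), hv.inj.mono (hΩK 0), C,
      fun z hz => hC z (hΩK 0 hz) (subset_closure hz)⟩
  · -- a bounded component
    have hKb : Bornology.IsBounded (K i) := by
      refine (isBounded_closedBall (x := (0 : ℂ)) (r := M)).subset fun z hz => ?_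
      rw [mem_closedBall, dist_zero_right]
      by_contra h
      exact Set.disjoint_left.1 (S.disj i 0 hi0) hz (hM z (not_le.1 h))
    obtain ⟨v, hv⟩ := exists_chart (S.closed i) (S.conn i) (S.int i) hcon (Or.inl hKb)
    obtain ⟨r₀, hr₀, hball⟩ := ball_sub S.c2 S.closed S.disj S.union i
    obtain ⟨C, hC⟩ := hv.deriv_bd (S.closed i) hne hr₀ hball (Or.inl hKb) hΩc
    have hv0 : ∀ z ∈ (K i)ᶜ, v z ≠ 0 := by
      intro z hz h0
      have hm : v z ∈ v '' (K i)ᶜ := mem_image_of_mem v hz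
      rw [hv.image_bdd hKb] at hm
      exact hm.2 h0
    obtain ⟨c, hc, hc'⟩ := hv.low hΩc fun z hz _ => hv0 z hz
    obtain ⟨c₂, hc₂, hc₂'⟩ := hv.low (isCompact_closedBall (0 : ℂ) M) fun z hz _ => hv0 z hz
    have hKo : IsOpen (K i)ᶜ := (S.closed i).isOpen_compl
    have hFd : DifferentiableOn ℂ (fun z => (v z)⁻¹) (K i)ᶜ := hv.holo.inv hv0
    have hL : (fun z => (v z)⁻¹) '' (K i)ᶜ = (closedBall (0 : ℂ) 1)ᶜ := by
      ext w
      rw [mem_compl_iff, mem_closedBall, dist_zero_right, not_le]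
      constructor
      · rintro ⟨z, hz, rfl⟩
        show 1 < ‖(v z)⁻¹‖
        rw [norm_inv]
        exact (one_lt_inv₀ (norm_pos_iff.2 (hv0 z hz))).2 (hv.lt_one hz)
      · intro hw
        have hw0 : 0 < ‖w‖ := by linarith
        have h1 : w⁻¹ ∈ v '' (K i)ᶜ := by
          rw [hv.image_bdd hKb]
          refine ⟨?_, inv_ne_zero (norm_pos_iff.1 hw0)⟩
          rw [mem_ball, dist_zero_right, norm_inv]
          exact inv_lt_one_of_one_lt₀ hw
        obtain ⟨z, hz, h2⟩ := h1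
        exact ⟨z, hz, by show (v z)⁻¹ = w; rw [h2, inv_inv]⟩
    obtain ⟨ρ', hρ'⟩ := S.map hi (F := fun z => (v z)⁻¹) (L := closedBall (0 : ℂ) 1) hFd
      (fun z hz w hw h => hv.inj hz hw (inv_injective h))
      (fun A hA hAc => by
        refine isClosed_of_closure_subset fun w hw => ?_
        -- points of `A` with image near `w` are bounded
        have h1 : ∀ᶠ z in Bornology.cobounded ℂ, ‖v z‖ < (‖w‖ + 1)⁻¹ := by
          have h2 := (hv.at_inf hKb).norm
          rw [norm_zero] at h2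
          exact h2.eventually (gt_mem_nhds (by positivity))
        obtain ⟨M₂, hM₂⟩ : ∃ M₂ : ℝ, ∀ z : ℂ, M₂ < ‖z‖ → ‖v z‖ < (‖w‖ + 1)⁻¹ := by
          rw [← comap_norm_atTop, eventually_comap] at h1
          obtain ⟨M₂, hM₂⟩ := (eventually_atTop.1 h1)
          exact ⟨M₂, fun z hz => hM₂ ‖z‖ hz.le z rfl⟩
        have hcomp : IsCompact ((fun z => (v z)⁻¹) '' (A ∩ closedBall 0 M₂)) :=
          ((isCompact_closedBall (0 : ℂ) M₂).inter_left hAc).image_of_continuousOn
            (hFd.continuousOn.mono (inter_subset_left.trans hA))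
        have h3 : w ∈ closure ((fun z => (v z)⁻¹) '' (A ∩ closedBall 0 M₂)) := by
          rw [Metric.mem_closure_iff] at hw ⊢
          intro ε hε
          obtain ⟨_, ⟨z, hz, rfl⟩, hd⟩ := hw (min ε 1) (lt_min hε one_pos)
          refine ⟨_, ⟨z, ⟨hz, ?_⟩, rfl⟩, hd.trans_le (min_le_left _ _)⟩
          rw [mem_closedBall, dist_zero_right]
          by_contra hlt
          have h4 := hM₂ z (not_le.1 hlt)
          have h5 : 0 < ‖v z‖ := norm_pos_iff.2 (hv0 z (hA hz))
          have h6 : ‖w‖ + 1 < ‖(v z)⁻¹‖ := by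
            rw [norm_inv]
            exact lt_inv_of_lt_inv₀ h5 h4
          have h7 : dist w (v z)⁻¹ < 1 := hd.trans_le (min_le_right _ _)
          have h8 : ‖(v z)⁻¹‖ ≤ ‖w‖ + dist w (v z)⁻¹ := by
            rw [dist_eq_norm, norm_sub_rev]
            calc ‖(v z)⁻¹‖ = ‖w + ((v z)⁻¹ - w)‖ := by congr 1; ring
              _ ≤ _ := norm_add_le _ _
          linarith
        rw [hcomp.isClosed.closure_eq] at h3
        exact image_mono inter_subset_left h3)
      hL (convex_closedBall (0 : ℂ) 1).isPreconnected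
      ⟨0, by
        rw [mem_interior_iff_mem_nhds]
        exact closedBall_mem_nhds _ one_pos⟩
      (fun p hp hp' => by
        have hp1 : 1 ≤ ‖p‖ := by
          have h1 : (closedBall (0 : ℂ) 1)ᶜ ⊆ {w : ℂ | 1 ≤ ‖w‖} := by
            intro w hw
            rw [mem_compl_iff, mem_closedBall, dist_zero_right, not_le] at hw
            exact hw.le
          exact closure_minimal h1 (isClosed_le continuous_const continuous_norm) hp'
        refine ⟨fun w : ℂ => (-1) * ‖w‖ ^ 2 + 1, contDiff_normSq (-1) 1 p,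
          fderiv_normSq_ne ?_ (-1) 1 (by norm_num), Eventually.of_forall fun w => ?_⟩
        · rintro rfl
          rw [norm_zero] at hp1
          linarith
        · rw [mem_closedBall, dist_zero_right, not_le]
          show 1 < ‖w‖ ↔ (-1) * ‖w‖ ^ 2 + 1 < 0
          have h0 := norm_nonneg w
          constructor
          · intro h; nlinarith
          · intro h; nlinarith)
      (by
        refine (isBounded_closedBall (x := (0 : ℂ)) (r := c⁻¹)).subset ?_
        rintro _ ⟨z, hz, rfl⟩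
        rw [mem_closedBall, dist_zero_right, norm_inv]
        exact inv_anti₀ hc (hc' z (hΩK i hz) (subset_closure hz)))
      ⟨max 1 c₂⁻¹, fun w hw => by
        rw [Function.update_of_ne (Ne.symm hi0)]
        have h1 : w ∈ (fun z => (v z)⁻¹) '' (K i)ᶜ := by
          rw [hL, mem_compl_iff, mem_closedBall, dist_zero_right, not_le]
          exact lt_of_le_of_lt (le_max_left _ _) hw
        obtain ⟨z, hz, rfl⟩ := h1
        refine ⟨z, ?_, rfl⟩
        by_contra hz0
        have h2 : ‖z‖ ≤ M := by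
          by_contra h
          exact hz0 (hM z (not_le.1 h))
        have h3 := hc₂' z hz (by rwa [mem_closedBall, dist_zero_right])
        have h4 : ‖(v z)⁻¹‖ ≤ c₂⁻¹ := by
          rw [norm_inv]; exact inv_anti₀ hc₂ h3
        have h5 : c₂⁻¹ < ‖(v z)⁻¹‖ := lt_of_le_of_lt (le_max_right _ _) hw
        linarith⟩
      (ρ₁ := 2) one_lt_two (κi := fun z => z)
      (fun z _ => differentiableWithinAt_id)
      (fun z _ w _ h => h)
      (fun z _ => by rw [mem_closedBall, dist_zero_right])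
      (fun r hr _ => by
        have h1 : (closedBall (0 : ℂ) 1 ∪ (fun z : ℂ => z) '' ann r) = ball 0 r := by
          ext w
          rw [mem_union, mem_closedBall, mem_ball, dist_zero_right]
          constructor
          · rintro (hw | ⟨z, ⟨h1, h2⟩, rfl⟩)
            · linarith
            · exact h2
          · intro hw
            rcases le_or_gt ‖w‖ 1 with h | h
            · exact Or.inl h
            · exact Or.inr ⟨w, ⟨h, hw⟩, rfl⟩
        rw [h1]
        exact isOpen_ball)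
    refine ⟨fun z => (v z)⁻¹, _, ρ', _, hρ', hFd.mono (hΩK i),
      fun z hz w hw h => hv.inj (hΩK i hz) (hΩK i hw) (inv_injective h),
      C * (c⁻¹) ^ 2, fun z hz => ?_⟩
    have hz' := hΩK i hz
    have hvd : HasDerivAt v (deriv v z) z :=
      (hv.holo.differentiableAt (hKo.mem_nhds hz')).hasDerivAt
    have hvd' : HasDerivAt (fun z => (v z)⁻¹) (-deriv v z / v z ^ 2) z := hvd.inv (hv0 z hz')
    rw [hvd'.deriv, norm_div, norm_neg, norm_pow]
    have h1 := hC z hz' (subset_closure hz)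
    have h2 := hc' z hz' (subset_closure hz)
    have hvp : 0 < ‖v z‖ := lt_of_lt_of_le hc h2
    rw [div_eq_mul_inv, ← inv_pow]
    have h3 : ‖v z‖⁻¹ ≤ c⁻¹ := inv_anti₀ hc h2
    exact mul_le_mul h1 (pow_le_pow_left₀ (by positivity) h3 2) (by positivity)
      ((norm_nonneg _).trans h1)

end Pool.Agent.EN
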