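import Pool.Agent.Helper6.Ends.Inverse

/-! EN-13: one conformal step. -/

set_option autoImplicit false

open Set Filter Metric Topology MeasureTheory

namespace Pool.Agent.EN

/-- intermediate state: the boundary components in `J` are already analytic -/
structure St (Ω : Set ℂ) {k : ℕ} (K : Fin (k + 1) → Set ℂ) (J : Finset (Fin (k + 1))) (ρ : ℝ)
    (κ : Fin (k + 1) → ℂ → ℂ) : Prop where
  c2 : C2Domain Ω
  closed : ∀ j, IsClosed (K j)
  conn : ∀ j, IsPreconnected (K j)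
  disj : ∀ i j, i ≠ j → Disjoint (K i) (K j)
  union : (⋃ j, K j) = Ωᶜ
  int : ∀ j, (interior (K j)).Nonempty
  unb : ∃ M : ℝ, ∀ z : ℂ, M < ‖z‖ → z ∈ K 0
  one_lt : 1 < ρ
  holo : ∀ j ∈ J, DifferentiableOn ℂ (κ j) (ann2 ρ)
  inj : ∀ j ∈ J, InjOn (κ j) (ann2 ρ)
  memK : ∀ j ∈ J, ∀ z ∈ ann2 ρ, (κ j z ∈ K j ↔ ‖z‖ ≤ 1)
  memΩ : ∀ j ∈ J, ∀ z ∈ ann2 ρ, (κ j z ∈ Ω ↔ 1 < ‖z‖)
  opn : ∀ j ∈ J, ∀ r, 1 < r → r ≤ ρ → IsOpen (K j ∪ κ j '' ann r)

theorem exists_ann2_sub {V : Set ℂ} (hV : IsOpen V) (h : sphere (0 : ℂ) 1 ⊆ V) :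
    ∃ ρ : ℝ, 1 < ρ ∧ ann2 ρ ⊆ V := by
  obtain ⟨δ, hδ, hs⟩ := (isCompact_sphere (0 : ℂ) 1).exists_cthickening_subset_open hV h
  refine ⟨1 + δ, by linarith, fun z hz => hs ?_⟩
  obtain ⟨h1, h2⟩ := hz
  have h0 : 0 < ‖z‖ := lt_trans (by positivity) h1
  have h3 : 1 - δ ≤ ‖z‖ := by
    refine le_trans ?_ h1.le
    rw [← one_div, le_div_iff₀ (by linarith)]
    nlinarith
  have hz0 : (‖z‖ : ℂ) ≠ 0 := by exact_mod_cast h0.ne'
  refine mem_cthickening_of_dist_le z (z / ‖z‖) δ _ ?_ ?_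
  · rw [mem_sphere, dist_zero_right, norm_div, Complex.norm_real, norm_norm, div_self h0.ne']
  · have h4 : z - z / ‖z‖ = (z / ‖z‖) * ((‖z‖ - 1 : ℝ) : ℂ) := by
      push_cast
      field_simp
    rw [dist_eq_norm, h4, norm_mul, norm_div, Complex.norm_real, norm_norm, div_self h0.ne',
      one_mul, Complex.norm_real, Real.norm_eq_abs, abs_le]
    constructor <;> linarith

theorem st_ann2_mono {ρ ρ' : ℝ} (h0 : 0 < ρ) (h : ρ ≤ ρ') : ann2 ρ ⊆ ann2 ρ' := fun _ hz =>
  ⟨lt_of_le_of_lt (inv_anti₀ h0 h) hz.1, hz.2.trans_le h⟩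

theorem ann_sub_ann2 {r ρ : ℝ} (h0 : 1 < ρ) (h : r ≤ ρ) : ann r ⊆ ann2 ρ := fun _ hz =>
  ⟨lt_trans (inv_lt_one_of_one_lt₀ h0) hz.1, hz.2.trans_le h⟩

theorem St.map {Ω : Set ℂ} {k : ℕ} {K : Fin (k + 1) → Set ℂ} {J : Finset (Fin (k + 1))} {ρ : ℝ}
    {κ : Fin (k + 1) → ℂ → ℂ} (S : St Ω K J ρ κ) {i : Fin (k + 1)} (hi : i ∉ J) {F : ℂ → ℂ}
    (F1 : DifferentiableOn ℂ F (K i)ᶜ) (F2 : InjOn F (K i)ᶜ)
    (F3 : ∀ C ⊆ (K i)ᶜ, IsClosed C → IsClosed (F '' C))
    {L : Set ℂ} (hL : F '' (K i)ᶜ = Lᶜ) (hLc : IsPreconnected L) (hLi : (interior L).Nonempty)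
    (F4 : ∀ p ∈ L, p ∈ closure Lᶜ → ∃ σ : ℂ → ℝ, ContDiffAt ℝ 2 σ p ∧ fderiv ℝ σ p ≠ 0 ∧
      ∀ᶠ w in 𝓝 p, (w ∉ L ↔ σ w < 0))
    (F5 : Bornology.IsBounded (F '' Ω))
    (F6 : ∃ M : ℝ, ∀ w : ℂ, M < ‖w‖ → w ∈ Function.update (fun l => F '' K l) i L 0)
    {ρ₁ : ℝ} (hρ₁ : 1 < ρ₁) {κi : ℂ → ℂ} (G1 : DifferentiableOn ℂ κi (ann2 ρ₁))
    (G2 : InjOn κi (ann2 ρ₁)) (G3 : ∀ z ∈ ann2 ρ₁, (κi z ∈ L ↔ ‖z‖ ≤ 1))
    (G4 : ∀ r, 1 < r → r ≤ ρ₁ → IsOpen (L ∪ κi '' ann r)) :
    ∃ ρ' : ℝ, St (F '' Ω) (Function.update (fun l => F '' K l) i L) (insert i J) ρ'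
      (Function.update (fun l => F ∘ κ l) i κi) := by
  classical
  have hKo : IsOpen (K i)ᶜ := (S.closed i).isOpen_compl
  have hsub : ∀ l, l ≠ i → K l ⊆ (K i)ᶜ := fun l hl z hz hz' =>
    (Set.disjoint_left.1 (S.disj l i hl) hz) hz'
  have hΩsub : Ω ⊆ (K i)ᶜ := by
    intro z hz hz'
    have : z ∈ Ωᶜ := by rw [← S.union]; exact mem_iUnion.2 ⟨i, hz'⟩
    exact this hz
  have hcov : ∀ z ∈ (K i)ᶜ, z ∈ Ω ∨ ∃ l, l ≠ i ∧ z ∈ K l := by
    intro z hz
    by_cases h : z ∈ Ω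
    · exact Or.inl h
    · have h' : z ∈ Ωᶜ := h
      rw [← S.union] at h'
      obtain ⟨l, hl⟩ := mem_iUnion.1 h'
      exact Or.inr ⟨l, fun e => hz (e ▸ hl), hl⟩
  have hΩo := S.c2.isOpen
  obtain ⟨hEo, hder, G, hG, hGF⟩ := exists_inverse hKo F1 F2
  have hΩK : ∀ z ∈ Ω, ∀ l, z ∉ K l := by
    intro z hz l hl
    have : z ∈ Ωᶜ := by rw [← S.union]; exact mem_iUnion.2 ⟨l, hl⟩
    exact this hz
  have hFc : ContinuousOn F (K i)ᶜ := F1.continuousOn
  have hopenimg : ∀ A ⊆ (K i)ᶜ, IsOpen A → IsOpen (F '' A) := fun A hA hAo =>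
    (exists_inverse hAo (F1.mono hA) (F2.mono hA)).1
  -- membership of images
  have himem : ∀ A ⊆ (K i)ᶜ, ∀ z ∈ (K i)ᶜ, (F z ∈ F '' A ↔ z ∈ A) := by
    intro A hA z hz
    constructor
    · rintro ⟨w, hw, h⟩
      rw [← F2 (hA hw) hz h]; exact hw
    · exact fun h => ⟨z, h, rfl⟩
  have hnL : ∀ z ∈ (K i)ᶜ, F z ∉ L := by
    intro z hz
    have : F z ∈ Lᶜ := by rw [← hL]; exact ⟨z, hz, rfl⟩
    exact this
  set R : Set ℂ := ⋃ l ∈ ({i}ᶜ : Set (Fin (k + 1))), F '' K l with hR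
  have hRc : IsClosed R := by
    refine Set.Finite.isClosed_biUnion (Set.toFinite _) fun l hl => ?_
    exact F3 _ (hsub l hl) (S.closed l)
  have hRL : ∀ w ∈ R, w ∉ L := by
    intro w hw
    rw [hR, mem_iUnion₂] at hw
    obtain ⟨l, hl, z, hz, rfl⟩ := hw
    exact hnL z (hsub l hl hz)
  have hRΩ : ∀ w, w ∉ L → (w ∈ F '' Ω ↔ w ∉ R) := by
    intro w hw
    have hw' : w ∈ F '' (K i)ᶜ := by rw [hL]; exact hw
    obtain ⟨z, hz, rfl⟩ := hw'
    rw [himem Ω hΩsub z hz]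
    constructor
    · intro h h'
      rw [hR, mem_iUnion₂] at h'
      obtain ⟨l, hl, h'⟩ := h'
      rw [himem _ (hsub l hl) z hz] at h'
      exact hΩK z h l h'
    · intro h
      rcases hcov z hz with h1 | ⟨l, hl, h1⟩
      · exact h1
      · refine absurd ?_ h
        rw [hR, mem_iUnion₂]
        exact ⟨l, hl, z, h1, rfl⟩
  have hLcl : IsClosed L := by
    rw [← isOpen_compl_iff, ← hL]; exact hEo
  -- the collar of the new component
  obtain ⟨ρ₂, hρ₂, hρ₂s⟩ : ∃ ρ₂ : ℝ, 1 < ρ₂ ∧ ann2 ρ₂ ⊆ (ann2 ρ₁ ∩ κi ⁻¹' Rᶜ) := by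
    refine exists_ann2_sub ?_ ?_
    · refine G1.continuousOn.isOpen_inter_preimage ?_ hRc.isOpen_compl
      exact (isOpen_lt continuous_const continuous_norm).inter
        (isOpen_lt continuous_norm continuous_const)
    · intro z hz
      have hz1 : ‖z‖ = 1 := by simpa using hz
      have hz2 : z ∈ ann2 ρ₁ := ⟨by rw [hz1]; exact inv_lt_one_of_one_lt₀ hρ₁, by rwa [hz1]⟩
      refine ⟨hz2, fun h => hRL _ h ((G3 z hz2).2 hz1.le)⟩
  have hρ₂1 : ann2 (min ρ (min ρ₁ ρ₂)) ⊆ ann2 ρ := st_ann2_mono (by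
    have := S.one_lt; positivity) (min_le_left _ _)
  have hp : 0 < min ρ (min ρ₁ ρ₂) := by
    have := S.one_lt; positivity
  have hρ₂2 : ann2 (min ρ (min ρ₁ ρ₂)) ⊆ ann2 ρ₁ :=
    st_ann2_mono hp ((min_le_right _ _).trans (min_le_left _ _))
  have hρ₂3 : ann2 (min ρ (min ρ₁ ρ₂)) ⊆ ann2 ρ₂ :=
    st_ann2_mono hp ((min_le_right _ _).trans (min_le_right _ _))
  have hκmem : ∀ j ∈ J, ∀ z ∈ ann2 ρ, κ j z ∈ (K i)ᶜ := by
    intro j hj z hz
    have hji : j ≠ i := fun e => hi (e ▸ hj)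
    rcases le_or_gt ‖z‖ 1 with h | h
    · exact hsub j hji ((S.memK j hj z hz).2 h)
    · exact hΩsub ((S.memΩ j hj z hz).2 h)
  refine ⟨min ρ (min ρ₁ ρ₂), ?_⟩
  have hjc : ∀ {j}, j ∈ insert i J → j = i ∨ (j ≠ i ∧ j ∈ J) := by
    intro j hj
    rcases Finset.mem_insert.1 hj with h | h
    · exact Or.inl h
    · exact Or.inr ⟨fun e => hi (e ▸ h), h⟩
  constructor
  · -- C2Domain
    refine ⟨hopenimg Ω hΩsub hΩo, S.c2.connected.image _ (hFc.mono hΩsub), F5, fun p hp => ?_⟩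
    have hfo := hopenimg Ω hΩsub hΩo
    have hpc : p ∈ closure (F '' Ω) := hp.1
    have hpn : p ∉ F '' Ω := by
      have := hp.2
      rwa [hfo.interior_eq] at this
    by_cases hpL : p ∈ L
    · have hpR : p ∉ R := fun h => hRL p h hpL
      obtain ⟨σ, h1, h2, h3⟩ := F4 p hpL (closure_mono (by
        rw [← hL]; exact image_mono hΩsub) hpc)
      refine ⟨σ, h1, h2, ?_⟩
      filter_upwards [h3, hRc.isOpen_compl.mem_nhds hpR] with w hw hwR
      rw [← hw]
      constructor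
      · rintro ⟨z, hz, rfl⟩
        exact hnL z (hΩsub hz)
      · intro h
        exact (hRΩ w h).2 hwR
    · have hpE : p ∈ F '' (K i)ᶜ := by rw [hL]; exact hpL
      obtain ⟨q, hq, rfl⟩ := hpE
      have hqΩ : q ∉ Ω := fun h => hpn ⟨q, h, rfl⟩
      have hGd : DifferentiableAt ℂ G (F q) := hG.differentiableAt (hEo.mem_nhds (mem_image_of_mem F hq))
      have hqc : q ∈ closure Ω := by
        have h1 : ContinuousWithinAt G (F '' Ω) (F q) := hGd.continuousAt.continuousWithinAt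
        have h2 := h1.mem_closure hpc (t := Ω) (by
          rintro _ ⟨z, hz, rfl⟩
          rw [hGF z (hΩsub hz)]; exact hz)
        rwa [hGF q hq] at h2
      have hqf : q ∈ frontier Ω := ⟨hqc, by rwa [hΩo.interior_eq]⟩
      obtain ⟨σ, h1, h2, h3⟩ := S.c2.smooth q hqf
      have hGan : AnalyticAt ℂ G (F q) := hG.analyticAt (hEo.mem_nhds (mem_image_of_mem F hq))
      have hGq : G (F q) = q := hGF q hq
      refine ⟨σ ∘ G, ?_, ?_, ?_⟩
      · have h4 : ContDiffAt ℝ 2 G (F q) := (hGan.contDiffAt (n := 2)).restrict_scalars ℝ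
        have h5 : ContDiffAt ℝ 2 σ (G (F q)) := by rw [hGq]; exact h1
        exact h5.comp _ h4
      · intro h0
        apply h2
        have hσd : DifferentiableAt ℝ σ (G (F q)) := by
          rw [hGq]; exact h1.differentiableAt (by norm_num)
        have hGr : HasFDerivAt G ((ContinuousLinearMap.toSpanSingleton ℂ
            (deriv G (F q))).restrictScalars ℝ) (F q) :=
          hGd.hasDerivAt.hasFDerivAt.restrictScalars ℝ
        have hchain : fderiv ℝ (σ ∘ G) (F q) = (fderiv ℝ σ (G (F q))).comp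
            ((ContinuousLinearMap.toSpanSingleton ℂ (deriv G (F q))).restrictScalars ℝ) :=
          (hσd.hasFDerivAt.comp _ hGr).fderiv
        have hone : deriv G (F q) * deriv F q = 1 := by
          have hFd : DifferentiableAt ℂ F q := F1.differentiableAt (hKo.mem_nhds hq)
          have h6 : HasDerivAt (G ∘ F) (deriv G (F q) * deriv F q) q :=
            HasDerivAt.comp q hGd.hasDerivAt hFd.hasDerivAt
          have h7 : (G ∘ F) =ᶠ[𝓝 q] id := by
            filter_upwards [hKo.mem_nhds hq] with z hz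
            exact hGF z hz
          have h8 : HasDerivAt (G ∘ F) 1 q := (hasDerivAt_id q).congr_of_eventuallyEq h7
          exact h6.unique h8
        have hne : deriv G (F q) ≠ 0 := left_ne_zero_of_mul_eq_one hone
        ext v
        rw [hchain, hGq] at h0
        have h9 := congrArg (fun T : ℂ →L[ℝ] ℝ => T (v / deriv G (F q))) h0
        simpa [hne] using h9
      · have h4 : ∀ᶠ w in 𝓝 (F q), (G w ∈ Ω ↔ σ (G w) < 0) := by
          have h5 : Tendsto G (𝓝 (F q)) (𝓝 q) := by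
            have := hGd.continuousAt.tendsto
            rwa [hGq] at this
          exact h5.eventually h3
        filter_upwards [h4, hEo.mem_nhds (mem_image_of_mem F hq)] with w hw hwE
        obtain ⟨z, hz, rfl⟩ := hwE
        rw [Function.comp_apply, ← hw, hGF z hz, himem Ω hΩsub z hz]
  · intro j
    by_cases hj : j = i
    · subst hj; rw [Function.update_self]; exact hLcl
    · rw [Function.update_of_ne hj]; exact F3 _ (hsub j hj) (S.closed j)
  · intro j
    by_cases hj : j = i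
    · subst hj; rw [Function.update_self]; exact hLc
    · rw [Function.update_of_ne hj]
      exact (S.conn j).image _ (hFc.mono (hsub j hj))
  · intro a b hab
    rw [Set.disjoint_left]
    by_cases ha : a = i
    · subst ha
      rw [Function.update_self, Function.update_of_ne hab.symm]
      rintro w hw ⟨z, hz, rfl⟩
      exact hnL z (hsub b hab.symm hz) hw
    · rw [Function.update_of_ne ha]
      rintro w ⟨z, hz, rfl⟩ hw
      by_cases hb : b = i
      · subst hb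
        rw [Function.update_self] at hw
        exact hnL z (hsub a ha hz) hw
      · rw [Function.update_of_ne hb, himem _ (hsub b hb) z (hsub a ha hz)] at hw
        exact Set.disjoint_left.1 (S.disj a b hab) hz hw
  · ext w
    rw [mem_iUnion]
    constructor
    · rintro ⟨j, hj⟩ ⟨z, hz, rfl⟩
      by_cases hji : j = i
      · subst hji
        rw [Function.update_self] at hj
        exact hnL z (hΩsub hz) hj
      · rw [Function.update_of_ne hji, himem _ (hsub j hji) z (hΩsub hz)] at hj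
        exact hΩK z hz j hj
    · intro hw
      by_cases hwL : w ∈ L
      · exact ⟨i, by rw [Function.update_self]; exact hwL⟩
      · have h1 : ¬ (w ∉ R) := fun h => hw ((hRΩ w hwL).2 h)
        rw [not_not, hR, mem_iUnion₂] at h1
        obtain ⟨l, hl, h1⟩ := h1
        exact ⟨l, by rw [Function.update_of_ne hl]; exact h1⟩
  · intro j
    by_cases hj : j = i
    · subst hj; rw [Function.update_self]; exact hLi
    · rw [Function.update_of_ne hj]
      obtain ⟨z, hz⟩ := S.int j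
      refine ⟨F z, ?_⟩
      refine interior_maximal (image_mono interior_subset)
        (hopenimg _ (interior_subset.trans (hsub j hj)) isOpen_interior) ⟨z, hz, rfl⟩
  · exact F6
  · have := S.one_lt
    exact lt_min this (lt_min hρ₁ hρ₂)
  · intro j hj
    rcases hjc hj with rfl | ⟨hji, hj⟩
    · rw [Function.update_self]; exact G1.mono hρ₂2
    · rw [Function.update_of_ne hji]
      exact F1.comp ((S.holo j hj).mono hρ₂1) fun z hz => hκmem j hj z (hρ₂1 hz)
  · intro j hj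
    rcases hjc hj with rfl | ⟨hji, hj⟩
    · rw [Function.update_self]; exact G2.mono hρ₂2
    · rw [Function.update_of_ne hji]
      exact F2.comp ((S.inj j hj).mono hρ₂1) fun z hz => hκmem j hj z (hρ₂1 hz)
  · intro j hj z hz
    rcases hjc hj with rfl | ⟨hji, hj⟩
    · rw [Function.update_self, Function.update_self]; exact G3 z (hρ₂2 hz)
    · rw [Function.update_of_ne hji, Function.update_of_ne hji]
      show F (κ j z) ∈ F '' K j ↔ _
      rw [himem _ (hsub j hji) _ (hκmem j hj z (hρ₂1 hz))]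
      exact S.memK j hj z (hρ₂1 hz)
  · intro j hj z hz
    rcases hjc hj with rfl | ⟨hji, hj⟩
    · rw [Function.update_self]
      constructor
      · rintro ⟨y, hy, h⟩
        by_contra h1
        rw [not_lt] at h1
        have := (G3 z (hρ₂2 hz)).2 h1
        rw [← h] at this
        exact hnL y (hΩsub hy) this
      · intro h1
        have h2 : κi z ∉ L := fun h => absurd ((G3 z (hρ₂2 hz)).1 h) (not_le.2 h1)
        exact (hRΩ _ h2).2 (hρ₂s (hρ₂3 hz)).2
    · rw [Function.update_of_ne hji]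
      show F (κ j z) ∈ F '' Ω ↔ _
      rw [himem _ hΩsub _ (hκmem j hj z (hρ₂1 hz))]
      exact S.memΩ j hj z (hρ₂1 hz)
  · intro j hj r hr hr'
    rcases hjc hj with rfl | ⟨hji, hj⟩
    · rw [Function.update_self, Function.update_self]
      exact G4 r hr (hr'.trans ((min_le_right _ _).trans (min_le_left _ _)))
    · rw [Function.update_of_ne hji, Function.update_of_ne hji, image_comp, ← image_union]
      have hrρ : r ≤ ρ := hr'.trans (min_le_left _ _)
      refine hopenimg _ ?_ (S.opn j hj r hr hrρ)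
      rintro z (hz | ⟨y, hy, rfl⟩)
      · exact hsub j hji hz
      · exact hκmem j hj y (ann_sub_ann2 S.one_lt hrρ hy)

end Pool.Agent.EN
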